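import Pool.Agent.Y105.RS.StmC

/-! Almost invariance implies the Ewens law (job RSW-EWF, for helper105). -/

set_option autoImplicit false

open Finset Equiv

namespace Pool.Agent.Y954.RS

theorem conn {k : ℕ} (σ : Perm (Fin k)) : ∃ K : ℝ, 0 ≤ K ∧ ∀ (Y : Perm (Fin k) → ℝ) (δ : ℝ),
    (∀ (i j : Fin k) (π : Perm (Fin k)), i ≠ j → |Y π - Y (swap i j * π)| ≤ δ) →
    ∀ π, |Y π - Y (σ * π)| ≤ K * δ := by
  refine Equiv.Perm.swap_induction_on σ ?_ ?_
  · refine ⟨0, le_rfl, fun Y δ _ π => ?_⟩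
    rw [one_mul, sub_self, abs_zero, zero_mul]
  · rintro f x y hxy ⟨K, hK0, hK⟩
    refine ⟨K + 1, by positivity, fun Y δ h π => ?_⟩
    have h1 := hK Y δ h π
    have h2 := h x y (f * π) hxy
    rw [mul_assoc]
    calc |Y π - Y (swap x y * (f * π))| ≤
        |Y π - Y (f * π)| + |Y (f * π) - Y (swap x y * (f * π))| := abs_sub_le _ _ _
      _ ≤ K * δ + δ := add_le_add h1 h2
      _ = (K + 1) * δ := by ring

theorem conn_all (k : ℕ) : ∃ N : ℝ, 0 ≤ N ∧ ∀ (Y : Perm (Fin k) → ℝ) (δ : ℝ), 0 ≤ δ →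
    (∀ (i j : Fin k) (π : Perm (Fin k)), i ≠ j → |Y π - Y (swap i j * π)| ≤ δ) →
    ∀ π σ, |Y π - Y σ| ≤ N * δ := by
  choose K hK0 hK using fun σ : Perm (Fin k) => conn σ
  refine ⟨∑ σ, K σ, Finset.sum_nonneg fun σ _ => hK0 σ, fun Y δ hδ h π σ => ?_⟩
  have h1 := hK (σ * π⁻¹) Y δ h π
  rw [inv_mul_cancel_right] at h1
  refine h1.trans (mul_le_mul_of_nonneg_right ?_ hδ)
  exact Finset.single_le_sum (f := K) (fun τ _ => hK0 τ) (Finset.mem_univ _)

theorem key (k : ℕ) (q : Perm (Fin k) → ℝ) (hq : ∀ π, 0 < q π) (η : ℝ) (hη : 0 < η) :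
    ∃ ε A : ℝ, 0 < ε ∧ 0 < A ∧
    ∀ (X : Perm (Fin k) → ℝ) (Z : ℝ), (∀ π, 0 ≤ X π) → 0 ≤ Z →
    (1 - (k : ℝ) ^ 2 / A) * Z ≤ ∑ π, X π → ∑ π, X π ≤ Z →
    (∀ (i j : Fin k) (π : Perm (Fin k)), i ≠ j →
      |X π * q (swap i j * π) - X (swap i j * π) * q π| ≤ ε * Z) →
    ∀ π, |X π - q π / (∑ σ : Perm (Fin k), q σ) * Z| ≤ η * Z := by
  obtain ⟨N, hN0, hN⟩ := conn_all k
  set S := ∑ σ : Perm (Fin k), q σ with hS
  set B := ∑ σ : Perm (Fin k), (q σ)⁻¹ with hB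
  have hqS : ∀ π, q π ≤ S := fun π =>
    Finset.single_le_sum (f := q) (fun τ _ => (hq τ).le) (Finset.mem_univ π)
  have hS0 : 0 < S := (hq 1).trans_le (hqS 1)
  have hqB : ∀ π, (q π)⁻¹ ≤ B := fun π =>
    Finset.single_le_sum (f := fun σ => (q σ)⁻¹) (fun τ _ => (inv_pos.2 (hq τ)).le)
      (Finset.mem_univ π)
  have hB0 : 0 < B := (inv_pos.2 (hq 1)).trans_le (hqB 1)
  have hc : 0 ≤ S * N * B ^ 2 := by positivity
  refine ⟨η / (2 * (S * N * B ^ 2 + 1)), 2 * ((k : ℝ) ^ 2 + 1) / η, by positivity, by positivity,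
    fun X Z hX hZ h1 h2 h3 π => ?_⟩
  set ε := η / (2 * (S * N * B ^ 2 + 1)) with hε
  have hε0 : 0 < ε := by rw [hε]; positivity
  have hε1 : S * N * B ^ 2 * ε ≤ η / 2 := by
    rw [hε]
    rw [← mul_div_assoc, div_le_div_iff₀ (by positivity) (by norm_num)]
    nlinarith
  set Y : Perm (Fin k) → ℝ := fun π => X π / q π with hY
  have hYd : ∀ (i j : Fin k) (π : Perm (Fin k)), i ≠ j →
      |Y π - Y (swap i j * π)| ≤ ε * Z * B ^ 2 := by
    intro i j π hij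
    have h4 := h3 i j π hij
    have h5 : Y π - Y (swap i j * π) =
        (X π * q (swap i j * π) - X (swap i j * π) * q π) * ((q π)⁻¹ * (q (swap i j * π))⁻¹) := by
      simp only [hY]
      have h6 := (hq π).ne'
      have h7 := (hq (swap i j * π)).ne'
      field_simp
    rw [h5, abs_mul]
    have h8 : |(q π)⁻¹ * (q (swap i j * π))⁻¹| ≤ B ^ 2 := by
      have h9 := inv_pos.2 (hq π)
      have h10 := inv_pos.2 (hq (swap i j * π))
      rw [abs_of_pos (mul_pos h9 h10), sq]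
      exact mul_le_mul (hqB _) (hqB _) h10.le hB0.le
    exact mul_le_mul h4 h8 (abs_nonneg _) (by positivity)
  have hYa := hN Y (ε * Z * B ^ 2) (by positivity) hYd
  have e1 : X π * S - q π * ∑ σ, X σ = ∑ σ, q π * q σ * (Y π - Y σ) := by
    rw [hS, Finset.mul_sum, Finset.mul_sum, ← Finset.sum_sub_distrib]
    refine Finset.sum_congr rfl fun σ _ => ?_
    simp only [hY]
    have h6 := (hq π).ne'
    have h7 := (hq σ).ne'
    field_simp
  have e2 : |X π * S - q π * ∑ σ, X σ| ≤ q π * S * (N * (ε * Z * B ^ 2)) := by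
    rw [e1]
    calc |∑ σ, q π * q σ * (Y π - Y σ)| ≤ ∑ σ, |q π * q σ * (Y π - Y σ)| :=
          Finset.abs_sum_le_sum_abs _ _
      _ ≤ ∑ σ, q π * q σ * (N * (ε * Z * B ^ 2)) := by
          refine Finset.sum_le_sum fun σ _ => ?_
          rw [abs_mul, abs_of_pos (mul_pos (hq π) (hq σ))]
          exact mul_le_mul_of_nonneg_left (hYa π σ) (mul_pos (hq π) (hq σ)).le
      _ = q π * S * (N * (ε * Z * B ^ 2)) := by
          rw [← Finset.sum_mul, ← Finset.mul_sum]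
  have e3 : |X π - q π / S * ∑ σ, X σ| ≤ q π * (N * (ε * Z * B ^ 2)) := by
    have h4 : X π - q π / S * ∑ σ, X σ = (X π * S - q π * ∑ σ, X σ) / S := by
      field_simp
    rw [h4, abs_div, abs_of_pos hS0, div_le_iff₀ hS0]
    calc _ ≤ _ := e2
      _ = _ := by ring
  have e4 : |∑ σ, X σ - Z| ≤ η / 2 * Z := by
    have h5 : (k : ℝ) ^ 2 / (2 * ((k : ℝ) ^ 2 + 1) / η) ≤ η / 2 := by
      rw [div_div_eq_mul_div, div_le_div_iff₀ (by positivity) (by norm_num)]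
      nlinarith [sq_nonneg (k : ℝ)]
    have h6 : (k : ℝ) ^ 2 / (2 * ((k : ℝ) ^ 2 + 1) / η) * Z ≤ η / 2 * Z :=
      mul_le_mul_of_nonneg_right h5 hZ
    have h7 : 0 ≤ η / 2 * Z := by positivity
    rw [abs_le]
    constructor <;> nlinarith
  have e5 : q π / S ≤ 1 := (div_le_one hS0).2 (hqS π)
  have e6 : 0 ≤ q π / S := (div_pos (hq π) hS0).le
  have e7 : X π - q π / S * Z =
      (X π - q π / S * ∑ σ, X σ) + q π / S * (∑ σ, X σ - Z) := by ring
  rw [e7]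
  calc |(X π - q π / S * ∑ σ, X σ) + q π / S * (∑ σ, X σ - Z)| ≤
        |X π - q π / S * ∑ σ, X σ| + |q π / S * (∑ σ, X σ - Z)| := abs_add_le _ _
    _ ≤ q π * (N * (ε * Z * B ^ 2)) + 1 * (η / 2 * Z) := by
        refine add_le_add e3 ?_
        rw [abs_mul, abs_of_nonneg e6]
        exact mul_le_mul e5 e4 (abs_nonneg _) zero_le_one
    _ ≤ S * (N * (ε * Z * B ^ 2)) + 1 * (η / 2 * Z) := by
        gcongr
        exact hqS π
    _ = (S * N * B ^ 2 * ε) * Z + η / 2 * Z := by ring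
    _ ≤ η / 2 * Z + η / 2 * Z := by gcongr
    _ = η * Z := by ring

theorem ewf : Pool.Agent.Y105.RS.S_EWF := by
  intro k ϑ η hϑ hη
  exact key k (fun π => ϑ ^ Pool.Agent.Y105.RS.nc π) (fun π => pow_pos hϑ _) η hη

end Pool.Agent.Y954.RS
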